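import Mathlib

set_option autoImplicit false

open scoped ContDiff Manifold

noncomputable section

namespace Pool.Agent.Results.MP_4926dc_gt.NoParallelNull

/-- A vector field `X` on `M` is smooth at `x`. -/
def SmoothFieldAt {E H M : Type} [NormedAddCommGroup E] [NormedSpace ℝ E] [TopologicalSpace H]
    (I : ModelWithCorners ℝ E H) [TopologicalSpace M] [ChartedSpace H M] [IsManifold I ∞ M]
    (X : ∀ x : M, TangentSpace I x) (x : M) : Prop :=
  ContMDiffAt I I.tangent ∞ (fun y : M => (⟨y, X y⟩ : TangentBundle I M)) x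

/-- A vector field `X` on `M` is differentiable at `x`. -/
def DiffFieldAt {E H M : Type} [NormedAddCommGroup E] [NormedSpace ℝ E] [TopologicalSpace H]
    (I : ModelWithCorners ℝ E H) [TopologicalSpace M] [ChartedSpace H M] [IsManifold I ∞ M]
    (X : ∀ x : M, TangentSpace I x) (x : M) : Prop :=
  MDifferentiableAt I I.tangent (fun y : M => (⟨y, X y⟩ : TangentBundle I M)) x

/-- A smooth pseudo-Riemannian metric (of arbitrary signature) on the manifold `M`: a field of
symmetric nondegenerate bilinear forms on the tangent spaces whose value on any two vector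
fields that are smooth at a point is a function that is smooth at this point. -/
structure PseudoMetric {E H : Type} [NormedAddCommGroup E] [NormedSpace ℝ E] [TopologicalSpace H]
    (I : ModelWithCorners ℝ E H) (M : Type) [TopologicalSpace M] [ChartedSpace H M]
    [IsManifold I ∞ M] where
  val : ∀ x : M, TangentSpace I x →L[ℝ] TangentSpace I x →L[ℝ] ℝ
  symm : ∀ (x : M) (v w : TangentSpace I x), val x v w = val x w v
  nondegenerate : ∀ (x : M) (v : TangentSpace I x), (∀ w : TangentSpace I x, val x v w = 0) → v = 0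
  smooth : ∀ (X Y : ∀ x : M, TangentSpace I x) (x : M), SmoothFieldAt I X x → SmoothFieldAt I Y x →
    ContMDiffAt I 𝓘(ℝ, ℝ) ∞ (fun y : M => val y (X y) (Y y)) x

/-- `cov` (a connection on `TM` in the sense of Mathlib, `cov Y x v` is `∇_v Y` at `x`) is the
Levi-Civita connection of `g`: it is torsion-free and `g` is parallel. -/
structure IsLeviCivita {E H M : Type} [NormedAddCommGroup E] [NormedSpace ℝ E] [TopologicalSpace H]
    {I : ModelWithCorners ℝ E H} [TopologicalSpace M] [ChartedSpace H M] [IsManifold I ∞ M]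
    (g : PseudoMetric I M) (cov : CovariantDerivative I E (fun x : M => TangentSpace I x)) :
    Prop where
  torsion_free : ∀ (X Y : ∀ x : M, TangentSpace I x) (x : M), DiffFieldAt I X x →
    DiffFieldAt I Y x → cov Y x (X x) - cov X x (Y x) = VectorField.mlieBracket I X Y x
  metric_parallel : ∀ (X Y : ∀ x : M, TangentSpace I x) (x : M), DiffFieldAt I X x →
    DiffFieldAt I Y x → ∀ v : TangentSpace I x,
      mvfderiv I (fun y : M => g.val y (X y) (Y y)) x v =
        g.val x (cov X x v) (Y x) + g.val x (X x) (cov Y x v)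

/-- `V` is parallel: `∇V = 0` for the Levi-Civita connection `∇` of `g`. -/
def ParallelField {E H M : Type} [NormedAddCommGroup E] [NormedSpace ℝ E]
    [TopologicalSpace H] {I : ModelWithCorners ℝ E H} [TopologicalSpace M] [ChartedSpace H M]
    [IsManifold I ∞ M] (g : PseudoMetric I M) (V : ∀ x : M, TangentSpace I x) : Prop :=
  ∀ cov : CovariantDerivative I E (fun x : M => TangentSpace I x), IsLeviCivita g cov →
    ∀ x, cov V x = 0

/-- `(M, g)` carries a parallel light-like vector field `V ≢ 0`. -/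
def CarriesParallelLightlike {E H M : Type} [NormedAddCommGroup E] [NormedSpace ℝ E]
    [TopologicalSpace H] {I : ModelWithCorners ℝ E H} [TopologicalSpace M] [ChartedSpace H M]
    [IsManifold I ∞ M] (g : PseudoMetric I M) : Prop :=
  ∃ V : ∀ x : M, TangentSpace I x, (∀ x, SmoothFieldAt I V x) ∧ (∃ x, V x ≠ 0) ∧
    (∀ x, g.val x (V x) (V x) = 0) ∧ ParallelField g V

/-- `A` is a smooth `(1,1)`-tensor field on `M`. -/
def SmoothEndo {E H M : Type} [NormedAddCommGroup E] [NormedSpace ℝ E] [TopologicalSpace H]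
    {I : ModelWithCorners ℝ E H} [TopologicalSpace M] [ChartedSpace H M] [IsManifold I ∞ M]
    (A : ∀ x : M, TangentSpace I x →L[ℝ] TangentSpace I x) : Prop :=
  ∀ (X : ∀ x : M, TangentSpace I x) (x : M), SmoothFieldAt I X x →
    SmoothFieldAt I (fun y => A y (X y)) x

/-- `A` is parallel: `∇A = 0` for the Levi-Civita connection `∇` of `g`. -/
def ParallelEndo {E H M : Type} [NormedAddCommGroup E] [NormedSpace ℝ E] [TopologicalSpace H]
    {I : ModelWithCorners ℝ E H} [TopologicalSpace M] [ChartedSpace H M] [IsManifold I ∞ M]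
    (g : PseudoMetric I M) (A : ∀ x : M, TangentSpace I x →L[ℝ] TangentSpace I x) : Prop :=
  ∃ cov : CovariantDerivative I E (fun x : M => TangentSpace I x), IsLeviCivita g cov ∧
    ∀ (X : ∀ x : M, TangentSpace I x) (x : M), SmoothFieldAt I X x →
      ∀ v : TangentSpace I x, cov (fun y => A y (X y)) x v = A x (cov X x v)

/-- `π : N → M` is a connected two-sheeted (smooth) covering and `h` is the pulled-back metric
`π^* g`. -/
structure IsDoubleCover {E H M N : Type} [NormedAddCommGroup E] [NormedSpace ℝ E]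
    [TopologicalSpace H] {I : ModelWithCorners ℝ E H} [TopologicalSpace M] [ChartedSpace H M]
    [IsManifold I ∞ M] [TopologicalSpace N] [ChartedSpace H N] [IsManifold I ∞ N]
    (g : PseudoMetric I M) (h : PseudoMetric I N) (π : N → M) : Prop where
  connected : ConnectedSpace N
  covering : IsCoveringMap π
  two_sheets : ∀ x : M, Nat.card (π ⁻¹' {x}) = 2
  local_diffeo : IsLocalDiffeomorph I I ∞ π
  pullback : ∀ (y : N) (v w : TangentSpace I y),
    h.val y v w = g.val (π y) (mfderiv I I π y v) (mfderiv I I π y w)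

/-- The question Q1: every closed connected pseudo-Riemannian manifold `(M, g)` which carries a
nonzero `g`-self-adjoint parallel nilpotent `(1,1)`-tensor field `A` carries, itself or on some
double cover, a nonzero parallel light-like vector field. -/
def Question : Prop :=
  ∀ (E H : Type) [NormedAddCommGroup E] [NormedSpace ℝ E] [FiniteDimensional ℝ E]
    [TopologicalSpace H] (I : ModelWithCorners ℝ E H) [I.Boundaryless]
    (M : Type) [TopologicalSpace M] [ChartedSpace H M] [IsManifold I ∞ M] [T2Space M]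
    [CompactSpace M] [ConnectedSpace M]
    (g : PseudoMetric I M) (A : ∀ x : M, TangentSpace I x →L[ℝ] TangentSpace I x),
    SmoothEndo A → (∃ x, A x ≠ 0) →
    (∀ (x : M) (v w : TangentSpace I x), g.val x (A x v) w = g.val x v (A x w)) →
    ParallelEndo g A →
    (∃ k : ℕ, 1 ≤ k ∧ ∀ x, (A x) ^ k = 0) →
    CarriesParallelLightlike g ∨
      ∃ (N : Type) (_ : TopologicalSpace N) (_ : ChartedSpace H N) (_ : IsManifold I ∞ N)
        (h : PseudoMetric I N) (π : N → M), IsDoubleCover g h π ∧ CarriesParallelLightlike h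


/-- the model Lie algebra `so(3) + R^3` -/
abbrev KK := (Fin 3 → ℝ) × (Fin 3 → ℝ)

/-- cross product written out -/
def cr (p q : Fin 3 → ℝ) : Fin 3 → ℝ :=
  ![p 1 * q 2 - p 2 * q 1, p 2 * q 0 - p 0 * q 2, p 0 * q 1 - p 1 * q 0]

def dt (p q : Fin 3 → ℝ) : ℝ := p 0 * q 0 + p 1 * q 1 + p 2 * q 2

/-- Lie bracket -/
def br (a c : KK) : KK := ((2 : ℝ) • cr a.1 c.1, 0)

/-- metric -/
def Bf (a c : KK) : ℝ := dt a.1 c.2 + dt a.2 c.1

/-- connection -/
def cn (a c : KK) : KK := (cr a.1 c.1, cr a.1 c.2 - cr a.2 c.1)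

def al (a : KK) : KK := (0, a.1)

theorem cn_torsion (a c : KK) : cn a c - cn c a = br a c := by
  ext i <;> fin_cases i <;> simp [cn, br, cr] <;> ring

theorem cn_metric (a b c : KK) : Bf (cn a b) c + Bf b (cn a c) = 0 := by
  simp [cn, Bf, cr, dt]; ring

theorem koszul (a b c : KK) :
    2 * Bf (cn a b) c = Bf (br a b) c + Bf (br c a) b - Bf (br b c) a := by
  simp [cn, Bf, cr, dt, br]; ring

theorem cn_al (a c : KK) : cn a (al c) = al (cn a c) := by
  ext i <;> fin_cases i <;> simp [cn, al, cr]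

def Rc (a b c : KK) : KK := cn a (cn b c) - cn b (cn a c) - cn (br a b) c

def ee (i : Fin 3) : KK := (Pi.single i 1, 0)

theorem span (w : KK) : w = (1 / 2 : ℝ) •
    (Rc (ee 0) (ee 1) (cn (ee 2) w) + Rc (ee 1) (ee 2) (cn (ee 0) w) +
      Rc (ee 2) (ee 0) (cn (ee 1) w)) := by
  ext i <;> fin_cases i <;> simp [Rc, cn, br, cr, ee] <;> ring

/-! General facts about vector fields on a manifold. -/

section General

variable {E H M : Type} [NormedAddCommGroup E] [NormedSpace ℝ E] [TopologicalSpace H]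
    {I : ModelWithCorners ℝ E H} [TopologicalSpace M] [ChartedSpace H M] [IsManifold I ∞ M]
    {F : Type} [NormedAddCommGroup F] [NormedSpace ℝ F]

theorem smooth_apply {f : M → F} (hf : ContMDiff I 𝓘(ℝ, F) ∞ f)
    {V : ∀ x : M, TangentSpace I x} {x : M} (hV : SmoothFieldAt I V x) :
    ContMDiffAt I 𝓘(ℝ, F) ∞ (fun y => mvfderiv I f y (V y)) x := by
  have h1 : ContMDiff I.tangent 𝓘(ℝ, F).tangent ∞ (tangentMap I 𝓘(ℝ, F) f) :=
    hf.contMDiff_tangentMap (m := ∞) (by simp)
  have h2 := contMDiff_snd_tangentBundle_modelSpace (n := ∞) F 𝓘(ℝ, F)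
  exact (h2.comp h1).contMDiffAt.comp x hV

theorem diff_apply {f : M → F} (hf : ContMDiff I 𝓘(ℝ, F) ∞ f)
    {V : ∀ x : M, TangentSpace I x} {x : M} (hV : DiffFieldAt I V x) :
    MDifferentiableAt I 𝓘(ℝ, F) (fun y => mvfderiv I f y (V y)) x := by
  have h1 : ContMDiff I.tangent 𝓘(ℝ, F).tangent ∞ (tangentMap I 𝓘(ℝ, F) f) :=
    hf.contMDiff_tangentMap (m := ∞) (by simp)
  have h2 := contMDiff_snd_tangentBundle_modelSpace (n := ∞) F 𝓘(ℝ, F)
  have h3 := (h2.comp h1).mdifferentiable (by simp)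
  exact (h3 _).comp x hV

theorem SmoothFieldAt.diff {V : ∀ x : M, TangentSpace I x} {x : M} (hV : SmoothFieldAt I V x) :
    DiffFieldAt I V x := ContMDiffAt.mdifferentiableAt hV (by simp)



theorem isManifold_min3 : IsManifold I (minSmoothness ℝ 3) M := by
  rw [minSmoothness_of_isRCLikeNormedField]; infer_instance

theorem isManifold_min2 : IsManifold I (minSmoothness ℝ 2) M := by
  rw [minSmoothness_of_isRCLikeNormedField]; infer_instance

theorem smooth_bracket [CompleteSpace E] {A B : ∀ x : M, TangentSpace I x}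
    (hA : ∀ x, SmoothFieldAt I A x) (hB : ∀ x, SmoothFieldAt I B x) (x : M) :
    SmoothFieldAt I (VectorField.mlieBracket I A B) x := by
  have : IsManifold I ((⊤ : ℕ∞) + 1) M := by
    simpa using (inferInstance : IsManifold I ∞ M)
  have := isManifold_min3 (I := I) (M := M)
  exact ContMDiffAt.mlieBracket_vectorField (m := ⊤) (n := ⊤) (hA x) (hB x) (by simp)

/-- derivative along a Lie bracket is the commutator of derivatives -/
theorem apply_mlieBracket [CompleteSpace E] {f : M → ℝ} (hf : ContMDiff I 𝓘(ℝ, ℝ) ∞ f)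
    {U V W : ∀ x : M, TangentSpace I x} (hU : ∀ x, SmoothFieldAt I U x)
    (hV : ∀ x, SmoothFieldAt I V x) (hW : ∀ x, SmoothFieldAt I W x) (x : M) (hx : W x ≠ 0) :
    mvfderiv I f x (VectorField.mlieBracket I U V x) =
      mvfderiv I (fun y => mvfderiv I f y (V y)) x (U x) -
        mvfderiv I (fun y => mvfderiv I f y (U y)) x (V x) := by
  have := isManifold_min3 (I := I) (M := M)
  have := isManifold_min2 (I := I) (M := M)
  have hfd : ∀ x, MDifferentiableAt I 𝓘(ℝ, ℝ) f x := hf.mdifferentiable (by simp)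
  have hap : ∀ {A : ∀ x : M, TangentSpace I x}, (∀ x, SmoothFieldAt I A x) →
      ∀ x, MDifferentiableAt I 𝓘(ℝ, ℝ) (fun y => mvfderiv I f y (A y)) x := fun hA x =>
    diff_apply hf (hA x).diff
  have prod : ∀ {A B : ∀ x : M, TangentSpace I x}, (∀ x, SmoothFieldAt I B x) →
      VectorField.mlieBracket I A (f • B) =
        (fun y => mvfderiv I f y (A y)) • B + f • VectorField.mlieBracket I A B := by
    intro A B hB
    funext y
    exact VectorField.mlieBracket_smul_right (hfd y) (hB y).diff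
  have smulS : ∀ {g : M → ℝ} {A : ∀ x : M, TangentSpace I x} (x : M),
      ContMDiffAt I 𝓘(ℝ, ℝ) ∞ g x → SmoothFieldAt I A x → SmoothFieldAt I (g • A) x := by
    intro g A x hg hA
    exact hg.smul_section hA
  have smulD : ∀ {g : M → ℝ} {A : ∀ x : M, TangentSpace I x} (x : M),
      MDifferentiableAt I 𝓘(ℝ, ℝ) g x → DiffFieldAt I A x → DiffFieldAt I (g • A) x := by
    intro g A x hg hA
    exact hg.smul_section hA
  have c2 : ∀ {A : ∀ x : M, TangentSpace I x}, (∀ x, SmoothFieldAt I A x) → ∀ x,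
      ContMDiffAt I I.tangent (minSmoothness ℝ 2) (fun y : M => (⟨y, A y⟩ : TangentBundle I M)) x := by
    intro A hA x
    refine (hA x).of_le ?_
    rw [minSmoothness_of_isRCLikeNormedField]
    exact WithTop.coe_le_coe.mpr le_top
  have J := VectorField.leibniz_identity_mlieBracket_apply (I := I) (U := U) (V := V) (W := f • W)
    (x := x) (c2 hU x) (c2 hV x) (c2 (fun x => smulS x (hf x) (hW x)) x)
  have J0 := VectorField.leibniz_identity_mlieBracket_apply (I := I) (U := U) (V := V) (W := W)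
    (x := x) (c2 hU x) (c2 hV x) (c2 hW x)
  have bUV := smooth_bracket hU hV
  have bUW := smooth_bracket hU hW
  have bVW := smooth_bracket hV hW
  rw [prod hW, prod hW, prod hW] at J
  rw [VectorField.mlieBracket_add_right (smulD x (hap hV x) (hW x).diff)
      (smulD x (hfd x) (bVW x).diff),
    VectorField.mlieBracket_add_right (smulD x (hap hU x) (hW x).diff)
      (smulD x (hfd x) (bUW x).diff),
    VectorField.mlieBracket_smul_right (hap hV x) (hW x).diff,
    VectorField.mlieBracket_smul_right (hfd x) (bVW x).diff,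
    VectorField.mlieBracket_smul_right (hap hU x) (hW x).diff,
    VectorField.mlieBracket_smul_right (hfd x) (bUW x).diff, J0] at J
  simp only [Pi.add_apply, Pi.smul_apply'] at J
  have key : (mvfderiv I f x (VectorField.mlieBracket I U V x) -
    (mvfderiv I (fun y => mvfderiv I f y (V y)) x (U x) -
      mvfderiv I (fun y => mvfderiv I f y (U y)) x (V x))) • W x = 0 := by
    linear_combination (norm := module) -J
  rcases smul_eq_zero.mp key with h | h
  · linarith
  · exact absurd h hx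

end General


/-- a global frame on `N` with the structure of the example -/
structure FrameData {E H N : Type} [NormedAddCommGroup E] [NormedSpace ℝ E] [TopologicalSpace H]
    {I : ModelWithCorners ℝ E H} [TopologicalSpace N] [ChartedSpace H N] [IsManifold I ∞ N]
    (g : PseudoMetric I N) where
  Ef : KK → ∀ x : N, TangentSpace I x
  add : ∀ (a b : KK) (x : N), Ef (a + b) x = Ef a x + Ef b x
  smul : ∀ (r : ℝ) (a : KK) (x : N), Ef (r • a) x = r • Ef a x
  smooth : ∀ (a : KK) (x : N), SmoothFieldAt I (Ef a) x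
  surj : ∀ (x : N) (v : TangentSpace I x), ∃ a, Ef a x = v
  metric : ∀ (a b : KK) (x : N), g.val x (Ef a x) (Ef b x) = Bf a b
  bracket : ∀ (a b : KK) (x : N), VectorField.mlieBracket I (Ef a) (Ef b) x = Ef (br a b) x

section Frame

variable {E H N : Type} [NormedAddCommGroup E] [NormedSpace ℝ E] [CompleteSpace E]
    [TopologicalSpace H]
    {I : ModelWithCorners ℝ E H} [TopologicalSpace N] [ChartedSpace H N] [IsManifold I ∞ N]
    {g : PseudoMetric I N}

omit [CompleteSpace E] in
theorem cov_frame (D : FrameData g) {cov : CovariantDerivative I E (fun x : N => TangentSpace I x)}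
    (hcov : IsLeviCivita g cov) (a b : KK) (x : N) :
    cov (D.Ef b) x (D.Ef a x) = D.Ef (cn a b) x := by
  have hM : ∀ a b c : KK, g.val x (cov (D.Ef b) x (D.Ef a x)) (D.Ef c x) +
      g.val x (cov (D.Ef c) x (D.Ef a x)) (D.Ef b x) = 0 := by
    intro a b c
    have h := hcov.metric_parallel (D.Ef b) (D.Ef c) x (D.smooth b x).diff (D.smooth c x).diff
      (D.Ef a x)
    have h0 : (fun y : N => g.val y (D.Ef b y) (D.Ef c y)) = fun _ => Bf b c := by
      funext y; exact D.metric b c y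
    rw [h0, mvfderiv_const] at h
    rw [g.symm x (cov (D.Ef c) x (D.Ef a x))]
    simpa using h.symm
  have hT : ∀ a b c : KK, g.val x (cov (D.Ef b) x (D.Ef a x)) (D.Ef c x) -
      g.val x (cov (D.Ef a) x (D.Ef b x)) (D.Ef c x) = Bf (br a b) c := by
    intro a b c
    have h := hcov.torsion_free (D.Ef a) (D.Ef b) x (D.smooth a x).diff (D.smooth b x).diff
    rw [D.bracket] at h
    rw [← D.metric, ← h]
    simp
  have key : ∀ c : KK, g.val x (cov (D.Ef b) x (D.Ef a x)) (D.Ef c x) =
      g.val x (D.Ef (cn a b) x) (D.Ef c x) := by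
    intro c
    rw [D.metric]
    have k := koszul a b c
    have h1 := hM a b c
    have h2 := hM b c a
    have h3 := hM c a b
    have t1 := hT a b c
    have t2 := hT c a b
    have t3 := hT b c a
    linarith
  have := g.nondegenerate x (cov (D.Ef b) x (D.Ef a x) - D.Ef (cn a b) x) (by
    intro w
    obtain ⟨c, rfl⟩ := D.surj x w
    have := key c
    simp [this])
  exact sub_eq_zero.mp this

theorem no_parallel (D : FrameData g)
    {cov : CovariantDerivative I E (fun x : N => TangentSpace I x)}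
    (hcov : IsLeviCivita g cov) {V : ∀ x : N, TangentSpace I x}
    (hV : ∀ x, SmoothFieldAt I V x) (hpar : ∀ x, cov V x = 0) (x : N) : V x = 0 := by
  let u : KK → N → ℝ := fun b y => g.val y (V y) (D.Ef b y)
  have hu : ∀ b, ContMDiff I 𝓘(ℝ, ℝ) ∞ (u b) := fun b y => g.smooth V (D.Ef b) y (hV y) (D.smooth b y)
  have du : ∀ a b y, mvfderiv I (u b) y (D.Ef a y) = u (cn a b) y := by
    intro a b y
    have h := hcov.metric_parallel V (D.Ef b) y (hV y).diff (D.smooth b y).diff (D.Ef a y)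
    rw [hpar y, cov_frame D hcov] at h
    simpa using h
  have hadd : ∀ a b y, u (a + b) y = u a y + u b y := by
    intro a b y; simp [u, D.add]
  have hsmul : ∀ (r : ℝ) a y, u (r • a) y = r * u a y := by
    intro r a y; simp [u, D.smul]
  have hsub : ∀ a b y, u (a - b) y = u a y - u b y := by
    intro a b y
    have : a - b = a + (-1 : ℝ) • b := by simp [sub_eq_add_neg]
    rw [this, hadd, hsmul]; ring
  have hne : D.Ef (ee 0) x ≠ 0 := by
    intro h
    have := D.metric (ee 0) (0, Pi.single 0 1) x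
    rw [h] at this
    simp [Bf, dt, ee] at this
  have hR : ∀ a b c, u (Rc a b c) x = 0 := by
    intro a b c
    have h := apply_mlieBracket (hu c) (D.smooth a) (D.smooth b) (D.smooth (ee 0)) x hne
    rw [D.bracket, du] at h
    have e1 : (fun y => mvfderiv I (u c) y (D.Ef b y)) = u (cn b c) := by
      funext y; exact du b c y
    have e2 : (fun y => mvfderiv I (u c) y (D.Ef a y)) = u (cn a c) := by
      funext y; exact du a c y
    rw [e1, e2, du, du] at h
    rw [Rc, hsub, hsub, h]; ring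
  have hall : ∀ w, u w x = 0 := by
    intro w
    rw [span w, hsmul, hadd, hadd, hR, hR, hR]; ring
  refine g.nondegenerate x (V x) ?_
  intro w
  obtain ⟨c, rfl⟩ := D.surj x w
  exact hall c

end Frame



section Deriv

variable {E H M : Type} [NormedAddCommGroup E] [NormedSpace ℝ E] [TopologicalSpace H]
    {I : ModelWithCorners ℝ E H} [TopologicalSpace M] [ChartedSpace H M]
    {F1 F2 F3 : Type} [NormedAddCommGroup F1] [NormedSpace ℝ F1]
    [NormedAddCommGroup F2] [NormedSpace ℝ F2] [NormedAddCommGroup F3] [NormedSpace ℝ F3]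

theorem mdiff_bil (B : F1 →L[ℝ] F2 →L[ℝ] F3) {f : M → F1} {g : M → F2} {x : M}
    (hf : MDifferentiableAt I 𝓘(ℝ, F1) f x) (hg : MDifferentiableAt I 𝓘(ℝ, F2) g x) :
    MDifferentiableAt I 𝓘(ℝ, F3) (fun y => B (f y) (g y)) x :=
  (MDifferentiableAt.clm_apply (mdifferentiableAt_const (c := B)) hf).clm_apply hg

theorem smooth_bil (B : F1 →L[ℝ] F2 →L[ℝ] F3) {f : M → F1} {g : M → F2} {x : M}
    (hf : ContMDiffAt I 𝓘(ℝ, F1) ∞ f x) (hg : ContMDiffAt I 𝓘(ℝ, F2) ∞ g x) :
    ContMDiffAt I 𝓘(ℝ, F3) ∞ (fun y => B (f y) (g y)) x :=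
  (ContMDiffAt.clm_apply (contMDiffAt_const (c := B)) hf).clm_apply hg

theorem mvfderiv_bil (B : F1 →L[ℝ] F2 →L[ℝ] F3) {f : M → F1} {g : M → F2} {x : M}
    (hf : MDifferentiableAt I 𝓘(ℝ, F1) f x) (hg : MDifferentiableAt I 𝓘(ℝ, F2) g x)
    (v : TangentSpace I x) :
    mvfderiv I (fun y => B (f y) (g y)) x v =
      B (mvfderiv I f x v) (g x) + B (f x) (mvfderiv I g x v) := by
  have h := mdiff_bil B hf hg
  have h1 : mvfderiv I (fun y => B (f y) (g y)) x =
      (B.precompR E (f x) (mvfderiv I g x) + B.precompL E (mvfderiv I f x) (g x)) := by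
    rw [h.mvfderiv]
    have hu : UniqueDiffWithinAt ℝ (Set.range I) (extChartAt I x x) := I.uniqueDiffWithinAt_image
    have := (B.hasFDerivWithinAt_of_bilinear hf.hasMFDerivAt.2 hg.hasMFDerivAt.2).fderivWithin hu
    simp only [mfld_simps] at this ⊢
    exact this
  rw [h1, add_comm (B (mvfderiv I f x v) (g x))]
  rfl

theorem mvfderiv_lin (L : F1 →L[ℝ] F2) {f : M → F1} {x : M}
    (hf : MDifferentiableAt I 𝓘(ℝ, F1) f x) (v : TangentSpace I x) :
    mvfderiv I (fun y => L (f y)) x v = L (mvfderiv I f x v) := by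
  have hL : MDifferentiableAt 𝓘(ℝ, F1) 𝓘(ℝ, F2) L (f x) := L.differentiableAt.mdifferentiableAt
  have h := mfderiv_comp_apply x hL hf v
  have h2 : mfderiv 𝓘(ℝ, F1) 𝓘(ℝ, F2) L (f x) = L := by
    rw [mfderiv_eq_fderiv]; exact L.fderiv
  rw [h2] at h
  exact h

end Deriv

def BfL : KK →L[ℝ] KK →L[ℝ] ℝ := LinearMap.toContinuousLinearMap
  ((LinearMap.toContinuousLinearMap : (KK →ₗ[ℝ] ℝ) ≃ₗ[ℝ] (KK →L[ℝ] ℝ)).toLinearMap ∘ₗ
    LinearMap.mk₂ ℝ Bf
      (by intro a b c; simp [Bf, dt]; ring) (by intro r a b; simp [Bf, dt]; ring)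
      (by intro a b c; simp [Bf, dt]; ring) (by intro r a b; simp [Bf, dt]; ring))

@[simp] theorem BfL_apply (a b : KK) : BfL a b = Bf a b := rfl

def cnL : KK →L[ℝ] KK →L[ℝ] KK := LinearMap.toContinuousLinearMap
  ((LinearMap.toContinuousLinearMap : (KK →ₗ[ℝ] KK) ≃ₗ[ℝ] (KK →L[ℝ] KK)).toLinearMap ∘ₗ
    LinearMap.mk₂ ℝ cn
      (by intro a b c; ext i <;> fin_cases i <;> simp [cn, cr] <;> ring)
      (by intro r a b; ext i <;> fin_cases i <;> simp [cn, cr] <;> ring)
      (by intro a b c; ext i <;> fin_cases i <;> simp [cn, cr] <;> ring)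
      (by intro r a b; ext i <;> fin_cases i <;> simp [cn, cr] <;> ring))

@[simp] theorem cnL_apply (a b : KK) : cnL a b = cn a b := rfl

def alL : KK →L[ℝ] KK := (0 : KK →L[ℝ] (Fin 3 → ℝ)).prod (ContinuousLinearMap.fst ℝ (Fin 3 → ℝ) (Fin 3 → ℝ))

@[simp] theorem alL_apply (a : KK) : alL a = al a := rfl

/-- a parallelization of `N` with the structure equations of the example -/
structure Par {E H : Type} [NormedAddCommGroup E] [NormedSpace ℝ E] [TopologicalSpace H]
    (I : ModelWithCorners ℝ E H) (N : Type) [TopologicalSpace N] [ChartedSpace H N]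
    [IsManifold I ∞ N] where
  Ef : KK → ∀ x : N, TangentSpace I x
  om : ∀ x : N, TangentSpace I x →L[ℝ] KK
  om_Ef : ∀ (a : KK) (x : N), om x (Ef a x) = a
  Ef_om : ∀ (x : N) (v : TangentSpace I x), Ef (om x v) x = v
  smooth : ∀ (a : KK) (x : N), SmoothFieldAt I (Ef a) x
  smooth_om : ∀ (X : ∀ x : N, TangentSpace I x) (x : N), SmoothFieldAt I X x →
    ContMDiffAt I 𝓘(ℝ, KK) ∞ (fun y => om y (X y)) x
  diff_om : ∀ (X : ∀ x : N, TangentSpace I x) (x : N), DiffFieldAt I X x →
    MDifferentiableAt I 𝓘(ℝ, KK) (fun y => om y (X y)) x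
  bracket : ∀ (a b : KK) (x : N), VectorField.mlieBracket I (Ef a) (Ef b) x = Ef (br a b) x

namespace Par

variable {E H N : Type} [NormedAddCommGroup E] [NormedSpace ℝ E]
    [TopologicalSpace H]
    {I : ModelWithCorners ℝ E H} [TopologicalSpace N] [ChartedSpace H N] [IsManifold I ∞ N]
    (P : Par I N)

theorem om_inj {x : N} {v w : TangentSpace I x} (h : P.om x v = P.om x w) : v = w := by
  rw [← P.Ef_om x v, ← P.Ef_om x w, h]

def EfL (x : N) : KK →L[ℝ] TangentSpace I x := LinearMap.toContinuousLinearMap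
  { toFun := fun a => P.Ef a x
    map_add' := fun a b => P.om_inj (by rw [map_add, P.om_Ef, P.om_Ef, P.om_Ef])
    map_smul' := fun r a => P.om_inj (by simp [P.om_Ef]) }

@[simp] theorem EfL_apply (x : N) (a : KK) : P.EfL x a = P.Ef a x := rfl

def metric : PseudoMetric I N where
  val x := ((ContinuousLinearMap.precomp ℝ (P.om x)).comp BfL).comp (P.om x)
  symm x v w := by simp [Bf, dt]; ring
  nondegenerate x v h := by
    refine P.om_inj (x := x) (v := v) (w := 0) ?_
    have h' : ∀ a : KK, Bf (P.om x v) a = 0 := by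
      intro a
      have := h (P.Ef a x)
      simpa [P.om_Ef] using this
    rw [map_zero]
    ext i <;> fin_cases i
    · simpa [Bf, dt] using h' (0, Pi.single 0 1)
    · simpa [Bf, dt] using h' (0, Pi.single 1 1)
    · simpa [Bf, dt] using h' (0, Pi.single 2 1)
    · simpa [Bf, dt] using h' (Pi.single 0 1, 0)
    · simpa [Bf, dt] using h' (Pi.single 1 1, 0)
    · simpa [Bf, dt] using h' (Pi.single 2 1, 0)
  smooth X Y x hX hY := by
    have h1 := P.smooth_om X x hX
    have h2 := P.smooth_om Y x hY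
    exact (contMDiffAt_const (c := BfL)).clm_apply h1 |>.clm_apply h2

theorem metric_apply (x : N) (v w : TangentSpace I x) :
    P.metric.val x v w = Bf (P.om x v) (P.om x w) := rfl

def cov0 (Y : ∀ x : N, TangentSpace I x) (x : N) : TangentSpace I x →L[ℝ] TangentSpace I x :=
  (P.EfL x).comp (mvfderiv I (fun y => P.om y (Y y)) x + (cnL.flip (P.om x (Y x))).comp (P.om x))

theorem cov0_apply (Y : ∀ x : N, TangentSpace I x) (x : N) (v : TangentSpace I x) :
    P.om x (P.cov0 Y x v) = mvfderiv I (fun y => P.om y (Y y)) x v + cn (P.om x v) (P.om x (Y x)) := by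
  simp [cov0, P.om_Ef]


theorem isCov : IsCovariantDerivativeOn E P.cov0 Set.univ where
  add {X Y x} hX hY _ := by
    have h1 := P.diff_om X x hX
    have h2 := P.diff_om Y x hY
    ext v
    refine P.om_inj ?_
    rw [_root_.add_apply, map_add, cov0_apply, cov0_apply, cov0_apply]
    have : (fun y => P.om y ((X + Y) y)) = (fun y => P.om y (X y)) + (fun y => P.om y (Y y)) := by
      funext y; simp
    rw [this, mvfderiv_add h1 h2, _root_.add_apply, ← cnL_apply, ← cnL_apply,
      ← cnL_apply, Pi.add_apply, map_add, map_add]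
    abel
  leibniz {Y f x} hY hf _ := by
    have h2 := P.diff_om Y x hY
    ext v
    refine P.om_inj ?_
    rw [_root_.add_apply, map_add, cov0_apply]
    have : (fun y => P.om y ((f • Y) y)) = f • (fun y => P.om y (Y y)) := by
      funext y; simp
    rw [this, mvfderiv_smul hf h2]
    simp [cov0_apply, ← cnL_apply]
    abel

def cov : CovariantDerivative I E (fun x : N => TangentSpace I x) where
  toFun := P.cov0
  isCovariantDerivativeOnUniv := P.isCov

theorem cov_apply (Y : ∀ x : N, TangentSpace I x) (x : N) (v : TangentSpace I x) :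
    P.om x (P.cov Y x v) = mvfderiv I (fun y => P.om y (Y y)) x v + cn (P.om x v) (P.om x (Y x)) :=
  P.cov0_apply Y x v

theorem isLeviCivita [FiniteDimensional ℝ E] : IsLeviCivita P.metric P.cov where
  torsion_free X Y x hX hY := by
    have key : ∀ a b : KK, P.cov.torsion x (P.Ef a x) (P.Ef b x) = 0 := by
      intro a b
      rw [CovariantDerivative.torsion_apply _ (P.smooth a x).diff (P.smooth b x).diff, P.bracket]
      refine P.om_inj ?_
      have e1 : ∀ c : KK, (fun y => P.om y (P.Ef c y)) = fun _ => c := by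
        intro c; funext y; exact P.om_Ef c y
      rw [map_sub, map_sub, cov_apply, cov_apply, e1, e1, mvfderiv_const, mvfderiv_const]
      simp only [P.om_Ef, map_zero]
      rw [← cn_torsion a b]
      simp
    have h := CovariantDerivative.torsion_apply P.cov hX hY
    rw [← P.Ef_om x (X x), ← P.Ef_om x (Y x), key] at h
    rw [P.Ef_om x (X x), P.Ef_om x (Y x)] at h
    exact (sub_eq_zero.mp h.symm)
  metric_parallel X Y x hX hY v := by
    have h1 := P.diff_om X x hX
    have h2 := P.diff_om Y x hY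
    have h := mvfderiv_bil BfL h1 h2 v
    have e : (fun y => P.metric.val y (X y) (Y y)) = fun y => BfL (P.om y (X y)) (P.om y (Y y)) := rfl
    rw [e, h, metric_apply, metric_apply, cov_apply, cov_apply, BfL_apply, BfL_apply]
    have k := cn_metric (P.om x v) (P.om x (X x)) (P.om x (Y x))
    have l1 : ∀ a b c : KK, Bf (a + b) c = Bf a c + Bf b c := by
      intro a b c; simp [← BfL_apply]
    have l2 : ∀ a b c : KK, Bf a (b + c) = Bf a b + Bf a c := by
      intro a b c; simp [← BfL_apply]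
    rw [l1, l2]
    linarith


def A (x : N) : TangentSpace I x →L[ℝ] TangentSpace I x := (P.EfL x).comp (alL.comp (P.om x))

theorem om_A (x : N) (v : TangentSpace I x) : P.om x (P.A x v) = al (P.om x v) := by
  simp [A, P.om_Ef]

theorem smooth_Ef {f : N → KK} {x : N} (hf : ContMDiffAt I 𝓘(ℝ, KK) ∞ f x) :
    SmoothFieldAt I (fun y => P.Ef (f y) y) x := by
  let b := Module.finBasis ℝ KK
  have e : (fun y => P.Ef (f y) y) =
      fun y => ∑ i, (b.repr (f y) i) • P.Ef (b i) y := by
    funext y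
    conv_lhs => rw [← b.sum_repr (f y)]
    rw [← EfL_apply, map_sum]
    simp
  rw [e]
  have h : ∀ i, ContMDiffAt I 𝓘(ℝ, ℝ) ∞ (fun y => b.repr (f y) i) x := by
    intro i
    have hL : ContMDiff 𝓘(ℝ, KK) 𝓘(ℝ, ℝ) ∞ (LinearMap.toContinuousLinearMap (b.coord i)) :=
      (LinearMap.toContinuousLinearMap (b.coord i)).contMDiff
    exact hL.contMDiffAt.comp x hf
  exact ContMDiffAt.sum_section (fun i _ => (h i).smul_section (P.smooth (b i) x))

theorem smooth_A : SmoothEndo P.A := by
  intro X x hX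
  have h := P.smooth_om X x hX
  have hL : ContMDiff 𝓘(ℝ, KK) 𝓘(ℝ, KK) ∞ alL := alL.contMDiff
  exact P.smooth_Ef (hL.contMDiffAt.comp x h)

theorem A_ne (x : N) : P.A x ≠ 0 := by
  intro h
  have h1 := P.om_A x (P.Ef (ee 0) x)
  rw [h, P.om_Ef] at h1
  have h2 := congrFun (congrArg Prod.snd h1) 0
  simp [al, ee] at h2

theorem A_sa (x : N) (v w : TangentSpace I x) :
    P.metric.val x (P.A x v) w = P.metric.val x v (P.A x w) := by
  rw [metric_apply, metric_apply, om_A, om_A]
  simp [Bf, al, dt]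

theorem A_sq (x : N) : (P.A x) ^ 2 = 0 := by
  ext v
  refine P.om_inj ?_
  rw [pow_two]
  change P.om x (P.A x (P.A x v)) = _
  rw [om_A, om_A]
  simp [al]

theorem A_par [FiniteDimensional ℝ E] : ParallelEndo P.metric P.A := by
  refine ⟨P.cov, P.isLeviCivita, ?_⟩
  intro X x hX v
  refine P.om_inj ?_
  have h1 := P.diff_om X x hX.diff
  have e : (fun y => P.om y (P.A y (X y))) = fun y => alL (P.om y (X y)) := by
    funext y; rw [om_A]; rfl
  rw [cov_apply, om_A, om_A, cov_apply, e, mvfderiv_lin alL h1, alL_apply, cn_al]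
  rw [← alL_apply, ← alL_apply, ← alL_apply, map_add]


def frame : FrameData P.metric where
  Ef := P.Ef
  add a b x := by rw [← EfL_apply, map_add]; rfl
  smul r a x := by rw [← EfL_apply, map_smul]; rfl
  smooth := P.smooth
  surj x v := ⟨P.om x v, P.Ef_om x v⟩
  metric a b x := by rw [metric_apply, P.om_Ef, P.om_Ef]
  bracket := P.bracket

end Par



theorem PseudoMetric.eq_of_val {E H M : Type} [NormedAddCommGroup E] [NormedSpace ℝ E]
    [TopologicalSpace H] {I : ModelWithCorners ℝ E H} [TopologicalSpace M] [ChartedSpace H M]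
    [IsManifold I ∞ M] {g h : PseudoMetric I M}
    (H : ∀ (y : M) (v w : TangentSpace I y), g.val y v w = h.val y v w) : g = h := by
  have : g.val = h.val := by
    funext y
    ext v w
    exact H y v w
  cases g
  cases h
  cases this
  rfl

theorem no_carrier {E H N : Type} [NormedAddCommGroup E] [NormedSpace ℝ E] [FiniteDimensional ℝ E]
    [TopologicalSpace H] {I : ModelWithCorners ℝ E H} [TopologicalSpace N] [ChartedSpace H N]
    [IsManifold I ∞ N] (P : Par I N) : ¬ CarriesParallelLightlike P.metric := by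
  rintro ⟨V, hV, ⟨x, hx⟩, -, hp⟩
  exact hx (no_parallel P.frame P.isLeviCivita hV (hp P.cov P.isLeviCivita) x)



/-! The manifold `S^3 x S^1 x S^1 x S^1`, its left-invariant frame and its Maurer-Cartan form. -/

section Group
open Bundle ContDiff Manifold Metric Quaternion
open Module (finrank)

instance factH : Fact (finrank ℝ ℍ[ℝ] = 3 + 1) := ⟨by simp [Quaternion.finrank_eq_four]⟩

abbrev S3 := sphere (0 : ℍ[ℝ]) 1

theorem coe_inv_S3 (x : S3) : ((x⁻¹ : S3) : ℍ[ℝ]) = star (x : ℍ[ℝ]) := by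
  rw [Metric.unitSphere.coe_inv]
  have h : ‖(x : ℍ[ℝ])‖ = 1 := by simp
  have h2 : Quaternion.normSq (x : ℍ[ℝ]) = 1 := by rw [Quaternion.normSq_eq_norm_mul_self, h]; norm_num
  rw [Quaternion.inv_def, h2]; simp

def starH : ℍ[ℝ] →L[ℝ] ℍ[ℝ] := LinearMap.toContinuousLinearMap
  { toFun := star
    map_add' := star_add
    map_smul' := fun c x => by simp }

instance lieS3 : LieGroup (𝓡 3) ω S3 where
  contMDiff_mul := by
    apply ContMDiff.codRestrict_sphere
    let c : S3 → ℍ[ℝ] := (↑)
    have h₂ : ContMDiff (𝓘(ℝ, ℍ[ℝ]).prod 𝓘(ℝ, ℍ[ℝ])) 𝓘(ℝ, ℍ[ℝ]) ω fun z : ℍ[ℝ] × ℍ[ℝ] => z.fst * z.snd := by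
      rw [contMDiff_iff]
      exact ⟨continuous_mul, fun x y => contDiff_mul.contDiffOn⟩
    suffices h₁ : ContMDiff _ _ _ (Prod.map c c) from
      h₂.comp h₁
    apply ContMDiff.prodMap <;> exact contMDiff_coe_sphere
  contMDiff_inv := by
    apply ContMDiff.codRestrict_sphere (f := fun x : S3 => ((x⁻¹ : S3) : ℍ[ℝ]))
    simp only [coe_inv_S3]
    exact starH.contDiff.contMDiff.comp contMDiff_coe_sphere

abbrev G6 := S3 × (Circle × (Circle × Circle))
abbrev I6 := (𝓡 3).prod ((𝓡 1).prod ((𝓡 1).prod (𝓡 1)))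

instance connS3 : ConnectedSpace S3 := by
  have := isConnected_sphere (E := ℍ[ℝ]) (by
    rw [← Module.finrank_eq_rank, Quaternion.finrank_eq_four]; norm_num) (0 : ℍ[ℝ]) (r := 1) zero_le_one
  exact isConnected_iff_connectedSpace.mp this

instance connS1 : ConnectedSpace Circle := by
  have := isConnected_sphere (E := ℂ) (by
    rw [← Module.finrank_eq_rank, Complex.finrank_real_complex]; norm_num) (0 : ℂ) (r := 1) zero_le_one
  exact isConnected_iff_connectedSpace.mp this

abbrev WW := ℍ[ℝ] × (ℂ × (ℂ × ℂ))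

def F6 (x : G6) : WW := ((x.1 : ℍ[ℝ]), ((x.2.1 : ℂ), ((x.2.2.1 : ℂ), (x.2.2.2 : ℂ))))

theorem smooth_cH : ContMDiff (𝓡 3) 𝓘(ℝ, ℍ[ℝ]) ∞ (fun s : S3 => (s : ℍ[ℝ])) := contMDiff_coe_sphere
theorem smooth_cC : ContMDiff (𝓡 1) 𝓘(ℝ, ℂ) ∞ (fun s : Circle => (s : ℂ)) :=
  haveI := finrank_real_complex_fact'
  contMDiff_coe_sphere

theorem smooth_F6 : ContMDiff I6 𝓘(ℝ, WW) ∞ F6 :=
  (smooth_cH.comp contMDiff_fst).prodMk_space
    ((smooth_cC.comp (contMDiff_fst.comp contMDiff_snd)).prodMk_space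
      ((smooth_cC.comp (contMDiff_fst.comp (contMDiff_snd.comp contMDiff_snd))).prodMk_space
        (smooth_cC.comp (contMDiff_snd.comp (contMDiff_snd.comp contMDiff_snd)))))

theorem F6_mul (x y : G6) : F6 (x * y) = F6 x * F6 y := by
  simp [F6]

def starW : WW →L[ℝ] WW := LinearMap.toContinuousLinearMap
  { toFun := star
    map_add' := star_add
    map_smul' := fun c x => by
      refine Prod.ext ?_ (Prod.ext ?_ (Prod.ext ?_ ?_)) <;> simp }

theorem star_F6 (x : G6) : star (F6 x) * F6 x = 1 := by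
  have h2 : Quaternion.normSq (x.1 : ℍ[ℝ]) = 1 := by
    rw [Quaternion.normSq_eq_norm_mul_self]; simp
  have h3 : ∀ z : Circle, star (z : ℂ) * (z : ℂ) = 1 := by
    intro z
    have := Circle.normSq_coe z
    rw [Complex.star_def, ← Complex.normSq_eq_conj_mul_self, this]; simp
  refine Prod.ext ?_ (Prod.ext ?_ (Prod.ext ?_ ?_))
  · simp [F6, Quaternion.star_mul_self, h2]
  · exact h3 _
  · exact h3 _
  · exact h3 _

def mulW : WW →L[ℝ] WW →L[ℝ] WW := ContinuousLinearMap.mul ℝ WW


/-- the imaginary quaternions -/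
def qI (p : Fin 3 → ℝ) : ℍ[ℝ] := ⟨0, p 0, p 1, p 2⟩

theorem qI_br (p q : Fin 3 → ℝ) : qI p * qI q - qI q * qI p = qI ((2 : ℝ) • cr p q) := by
  have h0 : ∀ p, (qI p).re = 0 := fun _ => rfl
  have h1 : ∀ p, (qI p).imI = p 0 := fun _ => rfl
  have h2 : ∀ p, (qI p).imJ = p 1 := fun _ => rfl
  have h3 : ∀ p, (qI p).imK = p 2 := fun _ => rfl
  ext <;> simp [h0, h1, h2, h3, cr] <;> ring

/-- the Lie algebra of imaginary elements -/
def io (a : KK) : WW := (qI a.1, (⟨0, a.2 0⟩, (⟨0, a.2 1⟩, ⟨0, a.2 2⟩)))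

def pr : WW →L[ℝ] KK := LinearMap.toContinuousLinearMap
  { toFun := fun w => (![w.1.imI, w.1.imJ, w.1.imK], ![w.2.1.im, w.2.2.1.im, w.2.2.2.im])
    map_add' := fun a b => by ext i <;> fin_cases i <;> simp
    map_smul' := fun c x => by ext i <;> fin_cases i <;> simp }

theorem pr_io (a : KK) : pr (io a) = a := by
  ext i <;> fin_cases i <;> simp [pr, io, qI]

theorem io_br (a b : KK) : io a * io b - io b * io a = io (br a b) := by
  refine Prod.ext ?_ (Prod.ext ?_ (Prod.ext ?_ ?_))
  · exact qI_br _ _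
  all_goals
    refine Complex.ext ?_ ?_ <;> simp [io, br]; try ring

theorem exists_S3 (q : ℍ[ℝ]) (hq : q.re = 0) :
    ∃ v : TangentSpace (𝓡 3) (1 : S3), mvfderiv (𝓡 3) (fun s : S3 => (s : ℍ[ℝ])) 1 v = q := by
  have h := range_mvfderiv_subtypeVal (n := 3) (1 : S3)
  have h2 : q ∈ (ℝ ∙ ((1 : S3) : ℍ[ℝ]))ᗮ := by
    rw [Submodule.mem_orthogonal_singleton_iff_inner_right]
    simp [Quaternion.inner_def, hq]
  rw [← h] at h2
  obtain ⟨v, hv⟩ := h2
  exact ⟨v, hv⟩

theorem exists_S1 (q : ℂ) (hq : q.re = 0) :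
    ∃ v : TangentSpace (𝓡 1) (1 : Circle), mvfderiv (𝓡 1) (fun s : Circle => (s : ℂ)) 1 v = q := by
  have := finrank_real_complex_fact'
  have h := range_mvfderiv_subtypeVal (n := 1) (1 : sphere (0 : ℂ) 1)
  have h2 : q ∈ (ℝ ∙ ((1 : sphere (0 : ℂ) 1) : ℂ))ᗮ := by
    rw [Submodule.mem_orthogonal_singleton_iff_inner_right]
    simp [hq]
  rw [← h] at h2
  obtain ⟨v, hv⟩ := h2
  exact ⟨v, hv⟩


theorem mvfderiv_prod {E1 H1 M1 V1 E2 H2 M2 V2 : Type} [NormedAddCommGroup E1] [NormedSpace ℝ E1]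
    [TopologicalSpace H1] {I1 : ModelWithCorners ℝ E1 H1} [TopologicalSpace M1] [ChartedSpace H1 M1]
    [NormedAddCommGroup V1] [NormedSpace ℝ V1]
    [NormedAddCommGroup E2] [NormedSpace ℝ E2]
    [TopologicalSpace H2] {I2 : ModelWithCorners ℝ E2 H2} [TopologicalSpace M2] [ChartedSpace H2 M2]
    [NormedAddCommGroup V2] [NormedSpace ℝ V2] {f1 : M1 → V1} {f2 : M2 → V2} {x : M1 × M2}
    (h1 : MDifferentiableAt I1 𝓘(ℝ, V1) f1 x.1) (h2 : MDifferentiableAt I2 𝓘(ℝ, V2) f2 x.2)
    (v : TangentSpace I1 x.1) (w : TangentSpace I2 x.2) :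
    mvfderiv (I1.prod I2) (fun y : M1 × M2 => (f1 y.1, f2 y.2)) x (v, w) =
      (mvfderiv I1 f1 x.1 v, mvfderiv I2 f2 x.2 w) := by
  have k1 : MDifferentiableAt (I1.prod I2) 𝓘(ℝ, V1) (fun y : M1 × M2 => f1 y.1) x :=
    h1.comp x mdifferentiableAt_fst
  have k2 : MDifferentiableAt (I1.prod I2) 𝓘(ℝ, V2) (fun y : M1 × M2 => f2 y.2) x :=
    h2.comp x mdifferentiableAt_snd
  have k := k1.prodMk_space k2
  refine Prod.ext ?_ ?_
  · have := mvfderiv_lin (ContinuousLinearMap.fst ℝ V1 V2) k (v, w)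
    refine this.symm.trans ?_
    have h := mfderiv_comp_apply x h1 (mdifferentiableAt_fst (I := I1) (I' := I2)) (v, w)
    rw [mfderiv_fst] at h
    exact h
  · have := mvfderiv_lin (ContinuousLinearMap.snd ℝ V1 V2) k (v, w)
    refine this.symm.trans ?_
    have h := mfderiv_comp_apply x h2 (mdifferentiableAt_snd (I := I1) (I' := I2)) (v, w)
    rw [mfderiv_snd] at h
    exact h

theorem exists_e (a : KK) : ∃ v : TangentSpace I6 (1 : G6), mvfderiv I6 F6 1 v = io a := by
  obtain ⟨v1, h1⟩ := exists_S3 (qI a.1) rfl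
  obtain ⟨v2, h2⟩ := exists_S1 ⟨0, a.2 0⟩ rfl
  obtain ⟨v3, h3⟩ := exists_S1 ⟨0, a.2 1⟩ rfl
  obtain ⟨v4, h4⟩ := exists_S1 ⟨0, a.2 2⟩ rfl
  have dH : ∀ s : S3, MDifferentiableAt (𝓡 3) 𝓘(ℝ, ℍ[ℝ]) (fun s : S3 => (s : ℍ[ℝ])) s :=
    smooth_cH.mdifferentiable (by simp)
  have dC : ∀ s : Circle, MDifferentiableAt (𝓡 1) 𝓘(ℝ, ℂ) (fun s : Circle => (s : ℂ)) s :=
    smooth_cC.mdifferentiable (by simp)
  have k3 : ∀ z, MDifferentiableAt ((𝓡 1).prod (𝓡 1)) 𝓘(ℝ, ℂ × ℂ)
      (fun y : Circle × Circle => ((y.1 : ℂ), (y.2 : ℂ))) z := fun z =>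
    ((dC z.1).comp z mdifferentiableAt_fst).prodMk_space ((dC z.2).comp z mdifferentiableAt_snd)
  have e3 := mvfderiv_prod (x := (1 : Circle × Circle)) (dC _) (dC _) v3 v4
  have k2 : ∀ z, MDifferentiableAt ((𝓡 1).prod ((𝓡 1).prod (𝓡 1))) 𝓘(ℝ, ℂ × ℂ × ℂ)
      (fun y : Circle × Circle × Circle => ((y.1 : ℂ), ((y.2.1 : ℂ), (y.2.2 : ℂ)))) z := fun z =>
    ((dC z.1).comp z mdifferentiableAt_fst).prodMk_space ((k3 z.2).comp z mdifferentiableAt_snd)
  have e2 := mvfderiv_prod (x := (1 : Circle × Circle × Circle)) (dC _) (k3 _) v2 (v3, v4)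
  have e1 := mvfderiv_prod (x := (1 : G6)) (dH _) (k2 _) v1 (v2, (v3, v4))
  refine ⟨(v1, (v2, (v3, v4))), ?_⟩
  refine e1.trans ?_
  refine Prod.ext h1 ?_
  refine e2.trans ?_
  refine Prod.ext h2 ?_
  refine e3.trans ?_
  exact Prod.ext h3 h4


theorem dF6_left (x : G6) (v : TangentSpace I6 (1 : G6)) :
    mvfderiv I6 F6 x (mulInvariantVectorField v x) = F6 x * mvfderiv I6 F6 1 v := by
  have hF : ∀ y, MDifferentiableAt I6 𝓘(ℝ, WW) F6 y := smooth_F6.mdifferentiable (by simp)
  have hL : MDifferentiableAt I6 I6 (fun y : G6 => x * y) 1 :=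
    (contMDiff_mul_left (I := I6) (n := ∞) (a := x)).mdifferentiableAt (by simp)
  have h1 := mvfderiv_lin (I := I6) (mulW (F6 x)) (hF 1) v
  have e : (fun y => mulW (F6 x) (F6 y)) = F6 ∘ (fun y : G6 => x * y) := by
    funext y; simp [mulW, F6_mul]
  rw [e] at h1
  have hF' : MDifferentiableAt I6 𝓘(ℝ, WW) F6 (x * 1) := hF _
  have h2 := mfderiv_comp_apply (1 : G6) hF' hL v
  have h3 : mvfderiv I6 (F6 ∘ (fun y : G6 => x * y)) 1 v =
      mvfderiv I6 F6 (x * 1) (mfderiv I6 I6 (fun y : G6 => x * y) 1 v) := h2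
  rw [h3] at h1
  have tr : ∀ (z w : G6) (u : EuclideanSpace ℝ (Fin 3) ×
      (EuclideanSpace ℝ (Fin 1) × (EuclideanSpace ℝ (Fin 1) × EuclideanSpace ℝ (Fin 1)))),
      z = w → (mvfderiv I6 F6 z : _ → WW) u = (mvfderiv I6 F6 w : _ → WW) u := by
    intro z w u h
    subst h
    rfl
  exact (tr x (x * 1) _ (mul_one x).symm).trans h1


set_option backward.defeqAttrib.useBackward true in
set_option backward.isDefEq.respectTransparency false in
theorem smooth_left_gen {E H G : Type} [NormedAddCommGroup E] [NormedSpace ℝ E]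
    [TopologicalSpace H] {I : ModelWithCorners ℝ E H} [TopologicalSpace G] [ChartedSpace H G]
    [Group G] [LieGroup I ∞ G] (v : TangentSpace I (1 : G)) :
    ContMDiff I I.tangent ∞ (fun g : G => (⟨g, mulInvariantVectorField v g⟩ : TangentBundle I G)) := by
  have i1 : IsManifold I (∞ + 1) G := by
    simpa using (inferInstance : IsManifold I ∞ G)
  let fg : G → TangentBundle I G := fun g ↦ TotalSpace.mk' E g 0
  have sfg : ContMDiff I I.tangent ∞ fg := contMDiff_zeroSection _ _
  let fv : G → TangentBundle I G := fun _ ↦ TotalSpace.mk' E 1 v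
  have sfv : ContMDiff I I.tangent ∞ fv := contMDiff_const
  let F₁ : G → (TangentBundle I G × TangentBundle I G) := fun g ↦ (fg g, fv g)
  have S₁ : ContMDiff I (I.tangent.prod I.tangent) ∞ F₁ := sfg.prodMk sfv
  let F₂ : (TangentBundle I G × TangentBundle I G) → TangentBundle (I.prod I) (G × G) :=
    (equivTangentBundleProd I G I G).symm
  have S₂ : ContMDiff (I.tangent.prod I.tangent) (I.prod I).tangent ∞ F₂ :=
    contMDiff_equivTangentBundleProd_symm
  let F₃ : TangentBundle (I.prod I) (G × G) → TangentBundle I G :=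
    tangentMap (I.prod I) I (fun (p : G × G) ↦ p.1 * p.2)
  have M3 : ContMDiff (I.prod I) I ∞ (fun (p : G × G) ↦ p.1 * p.2) := contMDiff_mul I (∞)
  have S₃ : ContMDiff (I.prod I).tangent I.tangent ∞ F₃ := by
    apply ContMDiff.contMDiff_tangentMap _ (m := ∞) le_rfl
    simpa using M3
  let S := (S₃.comp S₂).comp S₁
  convert! S with g
  · simp [F₁, F₂, F₃, fg, fv]
  · simp only [Function.comp_apply, tangentMap, F₃, F₂, F₁, fg, fv]
    rw [mfderiv_prod_eq_add_apply (M3.mdifferentiableAt (by simp))]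
    simp +instances [mulInvariantVectorField]


def ev (a : KK) : TangentSpace I6 (1 : G6) := Classical.choose (exists_e a)

theorem dF6_ev (a : KK) : mvfderiv I6 F6 1 (ev a) = io a := Classical.choose_spec (exists_e a)

def Ea (a : KK) (x : G6) : TangentSpace I6 x := mulInvariantVectorField (ev a) x

theorem dF6_Ea (a : KK) (x : G6) : mvfderiv I6 F6 x (Ea a x) = F6 x * io a := by
  rw [Ea, dF6_left, dF6_ev]

def oo (x : G6) : TangentSpace I6 x →L[ℝ] KK := pr.comp ((mulW (star (F6 x))).comp (mvfderiv I6 F6 x))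

theorem oo_apply (x : G6) (v : TangentSpace I6 x) :
    oo x v = pr (star (F6 x) * mvfderiv I6 F6 x v) := rfl

theorem oo_Ea (a : KK) (x : G6) : oo x (Ea a x) = a := by
  rw [oo_apply, dF6_Ea, ← mul_assoc, star_F6, one_mul, pr_io]

instance fdT (x : G6) : FiniteDimensional ℝ (TangentSpace I6 x) :=
  inferInstanceAs (FiniteDimensional ℝ (EuclideanSpace ℝ (Fin 3) ×
      (EuclideanSpace ℝ (Fin 1) × (EuclideanSpace ℝ (Fin 1) × EuclideanSpace ℝ (Fin 1)))))

theorem oo_inj (x : G6) : Function.Injective (oo x) := by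
  have h : finrank ℝ (TangentSpace I6 x) = finrank ℝ KK := by
    have h1 : finrank ℝ (TangentSpace I6 x) = finrank ℝ (EuclideanSpace ℝ (Fin 3) ×
      (EuclideanSpace ℝ (Fin 1) × (EuclideanSpace ℝ (Fin 1) × EuclideanSpace ℝ (Fin 1)))) := rfl
    rw [h1]
    simp [Module.finrank_prod]
  have h2 := LinearMap.injective_iff_surjective_of_finrank_eq_finrank h (f := (oo x).toLinearMap)
  exact h2.mpr (fun a => ⟨Ea a x, oo_Ea a x⟩)

theorem smooth_Ea (a : KK) (x : G6) : SmoothFieldAt I6 (Ea a) x :=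
  smooth_left_gen (I := I6) (ev a) x

theorem bracket_Ea (a b : KK) (x : G6) :
    VectorField.mlieBracket I6 (Ea a) (Ea b) x = Ea (br a b) x := by
  apply oo_inj x
  rw [oo_Ea, oo_apply]
  have hne : Ea (ee 0) x ≠ 0 := by
    intro h
    have h1 := oo_Ea (ee 0) x
    rw [h, map_zero] at h1
    have h2 := congrFun (congrArg Prod.fst h1) 0
    simp [ee] at h2
  have key : mvfderiv I6 F6 x (VectorField.mlieBracket I6 (Ea a) (Ea b) x) = F6 x * io (br a b) := by
    rw [SeparatingDual.eq_iff_forall_dual_eq (R := ℝ)]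
    intro l
    have hF : ∀ y, MDifferentiableAt I6 𝓘(ℝ, WW) F6 y := smooth_F6.mdifferentiable (by simp)
    have hl : ContMDiff 𝓘(ℝ, WW) 𝓘(ℝ, ℝ) ∞ l := l.contMDiff
    have h := apply_mlieBracket (hl.comp smooth_F6) (smooth_Ea a) (smooth_Ea b) (smooth_Ea (ee 0)) x hne
    have d1 : ∀ (y : G6) (v : TangentSpace I6 y), mvfderiv I6 (l ∘ F6) y v = l (mvfderiv I6 F6 y v) :=
      fun y v => mvfderiv_lin l (hF y) v
    have d2 : ∀ (c : KK), (fun y => mvfderiv I6 (l ∘ F6) y (Ea c y)) = fun y => (l.comp (mulW.flip (io c))) (F6 y) := by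
      intro c
      funext y
      rw [d1, dF6_Ea]
      rfl
    have d3 : ∀ (c d : KK) , mvfderiv I6 (fun y => (l.comp (mulW.flip (io c))) (F6 y)) x (Ea d x) =
        l (F6 x * io d * io c) := by
      intro c d
      rw [mvfderiv_lin _ (hF x), dF6_Ea]
      rfl
    rw [d1, d2, d2, d3, d3] at h
    rw [h, ← io_br, mul_sub, map_sub, mul_assoc, mul_assoc]
  rw [key, ← mul_assoc, star_F6, one_mul, pr_io]

section Form

variable {H N : Type} [TopologicalSpace H] {E : Type} [NormedAddCommGroup E] [NormedSpace ℝ E]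
    {I : ModelWithCorners ℝ E H} [TopologicalSpace N] [ChartedSpace H N] [IsManifold I ∞ N]

theorem smooth_form {f : N → WW} (hf : ContMDiff I 𝓘(ℝ, WW) ∞ f)
    {X : ∀ x : N, TangentSpace I x} {x : N} (hX : SmoothFieldAt I X x) :
    ContMDiffAt I 𝓘(ℝ, KK) ∞ (fun y => pr (star (f y) * mvfderiv I f y (X y))) x := by
  have h1 := smooth_apply hf hX
  have h2 : ContMDiffAt I 𝓘(ℝ, WW) ∞ (fun y => starW (f y)) x :=
    starW.contMDiff.contMDiffAt.comp x (hf x)
  have h3 := smooth_bil mulW h2 h1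
  exact pr.contMDiff.contMDiffAt.comp x h3

theorem diff_form {f : N → WW} (hf : ContMDiff I 𝓘(ℝ, WW) ∞ f)
    {X : ∀ x : N, TangentSpace I x} {x : N} (hX : DiffFieldAt I X x) :
    MDifferentiableAt I 𝓘(ℝ, KK) (fun y => pr (star (f y) * mvfderiv I f y (X y))) x := by
  have h1 := diff_apply hf hX
  have hF : ∀ y, MDifferentiableAt I 𝓘(ℝ, WW) f y := hf.mdifferentiable (by simp)
  have hs : MDifferentiableAt 𝓘(ℝ, WW) 𝓘(ℝ, WW) starW (f x) :=
    starW.differentiableAt.mdifferentiableAt
  have h2 : MDifferentiableAt I 𝓘(ℝ, WW) (fun y => starW (f y)) x := hs.comp x (hF x)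
  have h3 := mdiff_bil mulW h2 h1
  have hp : MDifferentiableAt 𝓘(ℝ, WW) 𝓘(ℝ, KK) pr (mulW (starW (f x)) (mvfderiv I f x (X x))) :=
    pr.differentiableAt.mdifferentiableAt
  exact hp.comp x h3

end Form

/-- the parallelization of the example -/
def PG : Par I6 G6 where
  Ef := Ea
  om := oo
  om_Ef := oo_Ea
  Ef_om x _ := oo_inj x (oo_Ea _ _)
  smooth := smooth_Ea
  smooth_om _ _ hX := smooth_form smooth_F6 hX
  diff_om _ _ hX := diff_form smooth_F6 hX
  bracket := bracket_Ea

/-- the parallelization, and hence the Levi-Civita connection, lifts to the double covers -/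
theorem cover_par {N : Type} [TopologicalSpace N]
    [ChartedSpace (ModelProd (EuclideanSpace ℝ (Fin 3)) (ModelProd (EuclideanSpace ℝ (Fin 1))
      (ModelProd (EuclideanSpace ℝ (Fin 1)) (EuclideanSpace ℝ (Fin 1))))) N] [IsManifold I6 ∞ N]
    {h : PseudoMetric I6 N} {q : N → G6} (hc : IsDoubleCover PG.metric h q) :
    ∃ P : Par I6 N, h = P.metric := by
  have := isManifold_min2 (I := I6) (M := G6)
  have := isManifold_min2 (I := I6) (M := N)
  have hinv : ∀ y, (mfderiv I6 I6 q y).IsInvertible := fun y =>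
    ⟨hc.local_diffeo.mfderivToContinuousLinearEquiv (by simp) y,
      hc.local_diffeo.mfderivToContinuousLinearEquiv_coe (by simp) y⟩
  have hsm : ContMDiff I6 I6 ∞ q := hc.local_diffeo.contMDiff
  let F : KK → ∀ y : N, TangentSpace I6 y := fun a => VectorField.mpullback I6 I6 q (Ea a)
  have hF : ∀ a y, mfderiv I6 I6 q y (F a y) = Ea a (q y) := by
    intro a y
    simp only [F, VectorField.mpullback_apply]
    exact (hinv y).self_apply_inverse _
  have hinj : ∀ (y : N) (v w : TangentSpace I6 y),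
      mfderiv I6 I6 q y v = mfderiv I6 I6 q y w → v = w := by
    intro y v w hvw
    exact (hinv y).injective hvw
  have hf : ContMDiff I6 𝓘(ℝ, WW) ∞ (F6 ∘ q) := smooth_F6.comp hsm
  have hom : ∀ (y : N) (v : TangentSpace I6 y), oo (q y) (mfderiv I6 I6 q y v) =
      pr (star ((F6 ∘ q) y) * mvfderiv I6 (F6 ∘ q) y v) := by
    intro y v
    have h1 : MDifferentiableAt I6 𝓘(ℝ, WW) F6 (q y) := smooth_F6.mdifferentiable (by simp) _
    have h2 : MDifferentiableAt I6 I6 q y := hsm.mdifferentiable (by simp) _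
    have h3 := mfderiv_comp_apply y h1 h2 v
    have h4 : mvfderiv I6 (F6 ∘ q) y v = mvfderiv I6 F6 (q y) (mfderiv I6 I6 q y v) := h3
    rw [h4]
    rfl
  refine ⟨⟨F, fun y => (oo (q y)).comp (mfderiv I6 I6 q y), ?_, ?_, ?_, ?_, ?_, ?_⟩, ?_⟩
  · intro a y
    rw [ContinuousLinearMap.comp_apply, hF, oo_Ea]
  · intro y v
    apply hinj
    rw [hF]
    exact oo_inj _ (oo_Ea _ _)
  · intro a y
    exact ContMDiffAt.mpullback_vectorField_preimage (smooth_Ea a (q y)) (hsm y) (hinv y) (by simp)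
  · intro X y hX
    have e : (fun z => ((oo (q z)).comp (mfderiv I6 I6 q z)) (X z)) =
        fun z => pr (star ((F6 ∘ q) z) * mvfderiv I6 (F6 ∘ q) z (X z)) := by
      funext z
      exact hom z (X z)
    rw [e]
    exact smooth_form hf hX
  · intro X y hX
    have e : (fun z => ((oo (q z)).comp (mfderiv I6 I6 q z)) (X z)) =
        fun z => pr (star ((F6 ∘ q) z) * mvfderiv I6 (F6 ∘ q) z (X z)) := by
      funext z
      exact hom z (X z)
    rw [e]
    exact diff_form hf hX
  · intro a b y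
    rw [← VectorField.mpullback_mlieBracket (n := ∞) (smooth_Ea a (q y)).diff
      (smooth_Ea b (q y)).diff (hsm y)
      (by rw [minSmoothness_of_isRCLikeNormedField]; exact WithTop.coe_le_coe.mpr le_top)]
    apply hinj
    rw [hF, VectorField.mpullback_apply, (hinv y).self_apply_inverse, bracket_Ea]
  · apply PseudoMetric.eq_of_val
    intro y v w
    rw [hc.pullback]
    rfl

end Group

/-- The answer to Q1 is negative: the product of the three-sphere and the three-torus, with the
left-invariant neutral metric `g (a, u) (b, v) = a . v + u . b` on `so(3) + R^3` and the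
endomorphism `A (a, u) = (0, a)`, is a counterexample. -/
theorem result : ¬ Question := by
  intro hQ
  have h := hQ _ _ I6 G6 PG.metric PG.A PG.smooth_A ⟨1, PG.A_ne 1⟩ PG.A_sa PG.A_par
    ⟨2, by norm_num, PG.A_sq⟩
  rcases h with h | ⟨N, i1, i2, i3, h, π, hc, h'⟩
  · exact no_carrier PG h
  · obtain ⟨P, rfl⟩ := cover_par hc
    exact no_carrier P h'

end Pool.Agent.Results.MP_4926dc_gt.NoParallelNull
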